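import Pool.Agent.V5helper19.ER.Stm

/-!
# Project ER, job FE: functions on `A_n` whose second differences for disjoint 3-cycles vanish
-/

set_option autoImplicit false
open Finset Equiv

namespace Pool.Agent.V5helper1.ER
open V5helper19.ER

variable {n : ℕ}

theorem inv_self' (σ : Perm (Fin n)) (x : Fin n) : σ⁻¹ (σ x) = x := σ.symm_apply_apply x

theorem self_inv' (σ : Perm (Fin n)) (x : Fin n) : σ (σ⁻¹ x) = x := σ.apply_symm_apply x

/-- the 3-cycle `a → b → c → a` -/
def cy (a b c : Fin n) (h : a ≠ b) (h' : b ≠ c) : G n :=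
  ⟨swap a b * swap b c, by
    rw [Equiv.Perm.mem_alternatingGroup, map_mul, Equiv.Perm.sign_swap h, Equiv.Perm.sign_swap h']
    norm_num⟩

theorem cy_three {a b c : Fin n} (h : a ≠ b) (h' : b ≠ c) (h'' : a ≠ c) :
    ((cy a b c h h' : G n) : Perm (Fin n)).IsThreeCycle := by
  have := Perm.isThreeCycle_swap_mul_swap_same (a := b) (b := a) (c := c) h.symm h' h''
  rwa [swap_comm b a] at this

theorem cy_a {a b c : Fin n} (h : a ≠ b) (h' : b ≠ c) (h'' : a ≠ c) :
    ((cy a b c h h' : G n) : Perm (Fin n)) a = b := by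
  simp [cy, Perm.mul_apply, swap_apply_of_ne_of_ne h h'']

theorem cy_b {a b c : Fin n} (h : a ≠ b) (h' : b ≠ c) (h'' : a ≠ c) :
    ((cy a b c h h' : G n) : Perm (Fin n)) b = c := by
  simp [cy, Perm.mul_apply, swap_apply_of_ne_of_ne h''.symm h'.symm]

theorem cy_c {a b c : Fin n} (h : a ≠ b) (h' : b ≠ c) :
    ((cy a b c h h' : G n) : Perm (Fin n)) c = a := by
  simp [cy, Perm.mul_apply]

theorem cy_o {a b c x : Fin n} (h : a ≠ b) (h' : b ≠ c) (h1 : x ≠ a) (h2 : x ≠ b) (h3 : x ≠ c) :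
    ((cy a b c h h' : G n) : Perm (Fin n)) x = x := by
  simp [cy, Perm.mul_apply, swap_apply_of_ne_of_ne h2 h3, swap_apply_of_ne_of_ne h1 h2]

theorem cy_rot {a b c : Fin n} (h : a ≠ b) (h' : b ≠ c) (h'' : a ≠ c) :
    cy a b c h h' = cy b c a h' h''.symm := by
  apply Subtype.ext
  ext x : 1
  by_cases h1 : x = a
  · rw [h1, cy_a h h' h'', cy_c h' h''.symm]
  by_cases h2 : x = b
  · rw [h2, cy_b h h' h'', cy_a h' h''.symm h.symm]
  by_cases h3 : x = c
  · rw [h3, cy_c h h', cy_b h' h''.symm h.symm]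
  rw [cy_o h h' h1 h2 h3, cy_o h' h''.symm h2 h3 h1]

theorem cy_mul {a b c d : Fin n} (hab : a ≠ b) (hbc : b ≠ c) (hac : a ≠ c) (had : a ≠ d)
    (hbd : b ≠ d) (hcd : c ≠ d) :
    cy a b c hab hbc = cy a b d hab hbd * cy b c d hbc hcd := by
  apply Subtype.ext
  ext x : 1
  rw [Subgroup.coe_mul, Perm.mul_apply]
  by_cases h1 : x = a
  · rw [h1, cy_a hab hbc hac, cy_o hbc hcd hab hac had, cy_a hab hbd had]
  by_cases h2 : x = b
  · rw [h2, cy_b hab hbc hac, cy_a hbc hcd hbd, cy_o hab hbd hac.symm hbc.symm hcd]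
  by_cases h3 : x = c
  · rw [h3, cy_c hab hbc, cy_b hbc hcd hbd, cy_c hab hbd]
  by_cases h4 : x = d
  · rw [h4, cy_o hab hbc had.symm hbd.symm hcd.symm, cy_c hbc hcd, cy_b hab hbd had]
  rw [cy_o hab hbc h1 h2 h3, cy_o hbc hcd h2 h3 h4, cy_o hab hbd h1 h2 h4]

theorem three_cy {z : G n} (hz : (z : Perm (Fin n)).IsThreeCycle) :
    ∃ (a b c : Fin n) (hab : a ≠ b) (hbc : b ≠ c), a ≠ c ∧ z = cy a b c hab hbc := by
  have h3 := hz.card_support
  obtain ⟨a, ha⟩ : (z : Perm (Fin n)).support.Nonempty := by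
    rw [← Finset.card_pos, h3]
    norm_num
  have h1 := (hz.nodup_iff_mem_support).2 ha
  have h2 := (hz.eq_swap_mul_swap_iff_mem_support).2 ha
  simp only [List.nodup_cons, List.mem_cons, List.not_mem_nil, or_false, not_or,
    not_false_eq_true, List.nodup_nil, and_true] at h1
  exact ⟨a, _, _, h1.1.1, h1.2, h1.1.2, Subtype.ext h2⟩

/-- 4-transitivity of the alternating group -/
theorem ex4 (hn : 6 ≤ n) {a b c d p q r s : Fin n} (h1 : [a, b, c, d].Nodup)
    (h2 : [p, q, r, s].Nodup) :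
    ∃ x : G n, (x : Perm (Fin n)) a = p ∧ (x : Perm (Fin n)) b = q ∧ (x : Perm (Fin n)) c = r ∧
      (x : Perm (Fin n)) d = s := by
  have hT : MulAction.IsMultiplyPretransitive (alternatingGroup (Fin n)) (Fin n) 4 := by
    have := alternatingGroup.isMultiplyPretransitive (Fin n)
    refine MulAction.isMultiplyPretransitive_of_le (n := Nat.card (Fin n) - 2) ?_ ?_
    · rw [Nat.card_fin]; omega
    · omega
  have e1 : Function.Injective ![a, b, c, d] := by
    rw [← List.nodup_ofFn]
    simpa using h1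
  have e2 : Function.Injective ![p, q, r, s] := by
    rw [← List.nodup_ofFn]
    simpa using h2
  obtain ⟨g, hg⟩ := hT.exists_smul_eq ⟨_, e1⟩ ⟨_, e2⟩
  have h : ∀ i, (g : Perm (Fin n)) (![a, b, c, d] i) = ![p, q, r, s] i := by
    intro i
    exact congrArg (fun f : Fin 4 ↪ Fin n => f i) hg
  exact ⟨g, h 0, h 1, h 2, h 3⟩

/-- the even permutations which fix `a, b, c` are products of 3-cycles which fix `a, b, c` -/
theorem fix_ind (a b c : Fin n) (P : G n → Prop) (h1 : P 1)
    (hm : ∀ z g : G n, (z : Perm (Fin n)).IsThreeCycle → (z : Perm (Fin n)) a = a →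
      (z : Perm (Fin n)) b = b → (z : Perm (Fin n)) c = c → P g → P (g * z))
    (g : G n) (ga : (g : Perm (Fin n)) a = a) (gb : (g : Perm (Fin n)) b = b)
    (gc : (g : Perm (Fin n)) c = c) : P g := by
  classical
  let p : Fin n → Prop := fun x => x ≠ a ∧ x ≠ b ∧ x ≠ c
  have key : ∀ σ ∈ Subgroup.closure {σ : Perm (Subtype p) | σ.IsThreeCycle},
      ∀ (g : G n), P g → ∃ g' : G n, (g' : Perm (Fin n)) = g * Perm.ofSubtype σ ∧ P g' := by
    intro σ hσ
    induction hσ using Subgroup.closure_induction_right with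
    | one =>
      intro g hg
      exact ⟨g, by simp, hg⟩
    | mul_right x hx y hy ih =>
      intro g hg
      obtain ⟨g', e1, h2⟩ := ih g hg
      have hz : (Perm.ofSubtype y).IsThreeCycle := by
        rw [Perm.IsThreeCycle, Perm.cycleType_ofSubtype]
        exact hy
      refine ⟨g' * ⟨Perm.ofSubtype y, hz.mem_alternatingGroup⟩, ?_, ?_⟩
      · rw [Subgroup.coe_mul, e1, map_mul, mul_assoc]
      · refine hm _ _ hz ?_ ?_ ?_ h2
        · exact Perm.ofSubtype_apply_of_not_mem _ (fun h => h.1 rfl)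
        · exact Perm.ofSubtype_apply_of_not_mem _ (fun h => h.2.1 rfl)
        · exact Perm.ofSubtype_apply_of_not_mem _ (fun h => h.2.2 rfl)
    | mul_inv_cancel x hx y hy ih =>
      intro g hg
      obtain ⟨g', e1, h2⟩ := ih g hg
      have hz : (Perm.ofSubtype y⁻¹).IsThreeCycle := by
        rw [Perm.IsThreeCycle, Perm.cycleType_ofSubtype]
        exact Perm.IsThreeCycle.inv hy
      refine ⟨g' * ⟨Perm.ofSubtype y⁻¹, hz.mem_alternatingGroup⟩, ?_, ?_⟩
      · rw [Subgroup.coe_mul, e1, map_mul, mul_assoc]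
      · refine hm _ _ hz ?_ ?_ ?_ h2
        · exact Perm.ofSubtype_apply_of_not_mem _ (fun h => h.1 rfl)
        · exact Perm.ofSubtype_apply_of_not_mem _ (fun h => h.2.1 rfl)
        · exact Perm.ofSubtype_apply_of_not_mem _ (fun h => h.2.2 rfl)
  have hp : ∀ x, p ((g : Perm (Fin n)) x) ↔ p x := by
    intro x
    have e : ∀ y, (g : Perm (Fin n)) y = y → ((g : Perm (Fin n)) x ≠ y ↔ x ≠ y) := by
      intro y hy
      rw [not_iff_not]
      constructor
      · intro h
        rw [← hy] at h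
        exact (g : Perm (Fin n)).injective h
      · intro h
        rw [h, hy]
    simp only [p, e a ga, e b gb, e c gc]
  have hp' : ∀ x, (g : Perm (Fin n)) x ≠ x → p x := by
    intro x hx
    refine ⟨?_, ?_, ?_⟩
    · rintro rfl; exact hx ga
    · rintro rfl; exact hx gb
    · rintro rfl; exact hx gc
  have hs : (Perm.subtypePerm (g : Perm (Fin n)) hp) ∈
      Subgroup.closure {σ : Perm (Subtype p) | σ.IsThreeCycle} := by
    rw [Perm.closure_three_cycles_eq_alternating, Perm.mem_alternatingGroup,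
      Perm.sign_subtypePerm _ hp hp']
    exact Perm.mem_alternatingGroup.1 g.2
  obtain ⟨g', e1, h2⟩ := key _ hs 1 h1
  have : g' = g := by
    apply Subtype.ext
    rw [e1, Perm.ofSubtype_subtypePerm hp hp', Subgroup.coe_one, one_mul]
  rwa [this] at h2

/-- the first difference of `w` for a 3-cycle `z` on `a, b, c` is a function of `x a, x b, x c` -/
theorem fac (w : G n → ℝ)
    (hw : ∀ z z' : G n, (z : Perm (Fin n)).IsThreeCycle → (z' : Perm (Fin n)).IsThreeCycle →
      (z : Perm (Fin n)).Disjoint z' → D2 w z z')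
    (a b c : Fin n) (hab : a ≠ b) (hbc : b ≠ c) (hac : a ≠ c) :
    ∃ F : Fin n → Fin n → Fin n → ℝ, ∀ x : G n, w (x * cy a b c hab hbc) - w x =
      F ((x : Perm (Fin n)) a) ((x : Perm (Fin n)) b) ((x : Perm (Fin n)) c) := by
  have key : ∀ x g : G n, (g : Perm (Fin n)) a = a → (g : Perm (Fin n)) b = b →
      (g : Perm (Fin n)) c = c →
      w (x * g * cy a b c hab hbc) - w (x * g) = w (x * cy a b c hab hbc) - w x := by
    intro x g ga gb gc
    refine fix_ind a b c (fun g => w (x * g * cy a b c hab hbc) - w (x * g) =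
      w (x * cy a b c hab hbc) - w x) (by simp) ?_ g ga gb gc
    intro z g hz za zb zc hg
    have hd : (cy a b c hab hbc : Perm (Fin n)).Disjoint z := by
      intro y
      by_cases h1 : y = a
      · right; rw [h1, za]
      by_cases h2 : y = b
      · right; rw [h2, zb]
      by_cases h3 : y = c
      · right; rw [h3, zc]
      left
      exact cy_o hab hbc h1 h2 h3
    have h := hw _ z (cy_three hab hbc hac) hz hd (x * g)
    have hcom : cy a b c hab hbc * z = z * cy a b c hab hbc := by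
      apply Subtype.ext
      exact hd.commute
    rw [mul_assoc (x * g) (cy a b c hab hbc) z, hcom, ← mul_assoc] at h
    rw [← mul_assoc x g z]
    linarith
  have hfac : (fun x : G n => w (x * cy a b c hab hbc) - w x).FactorsThrough
      (fun x : G n => ((x : Perm (Fin n)) a, (x : Perm (Fin n)) b, (x : Perm (Fin n)) c)) := by
    intro x y hxy
    simp only [Prod.mk.injEq] at hxy
    obtain ⟨h1, h2, h3⟩ := hxy
    have h := key x (x⁻¹ * y) ?_ ?_ ?_
    · rw [mul_inv_cancel_left] at h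
      exact h.symm
    · rw [Subgroup.coe_mul, Perm.mul_apply, ← h1, Subgroup.coe_inv, inv_self']
    · rw [Subgroup.coe_mul, Perm.mul_apply, ← h2, Subgroup.coe_inv, inv_self']
    · rw [Subgroup.coe_mul, Perm.mul_apply, ← h3, Subgroup.coe_inv, inv_self']
  rw [Function.factorsThrough_iff] at hfac
  obtain ⟨e, he⟩ := hfac
  exact ⟨fun p q r => e (p, q, r), fun x => congrFun he x⟩

theorem new_elt (hn : 10 ≤ n) (S : Finset (Fin n)) (hS : S.card ≤ 5) : ∃ s, s ∉ S := by
  by_contra h
  push Not at h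
  have h1 : (univ : Finset (Fin n)) ⊆ S := fun x _ => h x
  have h2 := card_le_card h1
  rw [card_univ, Fintype.card_fin] at h2
  omega

/-- the mixed differences in the last two variables -/
theorem mixed (hn : 10 ≤ n) (w : G n → ℝ)
    (hw : ∀ z z' : G n, (z : Perm (Fin n)).IsThreeCycle → (z' : Perm (Fin n)).IsThreeCycle →
      (z : Perm (Fin n)).Disjoint z' → D2 w z z')
    (a b c : Fin n) (hab : a ≠ b) (hbc : b ≠ c) (hac : a ≠ c)
    (F : Fin n → Fin n → Fin n → ℝ)
    (hF : ∀ x : G n, w (x * cy a b c hab hbc) - w x =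
      F ((x : Perm (Fin n)) a) ((x : Perm (Fin n)) b) ((x : Perm (Fin n)) c))
    (p q q' r r' : Fin n) (h : [p, q, q', r, r'].Nodup) :
    F p q r + F p q' r' = F p q r' + F p q' r := by
  obtain ⟨d, hd⟩ := new_elt hn {a, b, c} (card_le_three.trans (by norm_num))
  obtain ⟨s, hs⟩ := new_elt hn {p, q, q', r, r'} card_le_five
  simp only [mem_insert, mem_singleton, not_or] at hd hs
  obtain ⟨hda, hdb, hdc⟩ := hd
  obtain ⟨F1, hF1⟩ := fac w hw b c d hbc (Ne.symm hdc) (Ne.symm hdb)
  obtain ⟨F2, hF2⟩ := fac w hw a b d hab (Ne.symm hdb) (Ne.symm hda)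
  have hab4 : [a, b, c, d].Nodup := by
    simp only [List.nodup_cons, List.mem_cons, List.not_mem_nil, or_false, not_or,
      not_false_eq_true, List.nodup_nil, and_true]
    exact ⟨⟨hab, hac, Ne.symm hda⟩, ⟨hbc, Ne.symm hdb⟩, Ne.symm hdc⟩
  have key : ∀ q r : Fin n, [p, q, r, s].Nodup → F p q r = F1 s r p + F2 p q s := by
    intro q r hh
    obtain ⟨x, xa, xb, xc, xd⟩ := ex4 (by omega) hab4 hh
    have e1 := hF x
    have e2 := hF1 (x * cy a b d hab (Ne.symm hdb))
    have e3 := hF2 x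
    rw [xa, xb, xc] at e1
    rw [xa, xb, xd] at e3
    rw [Subgroup.coe_mul, Perm.mul_apply, Perm.mul_apply, Perm.mul_apply,
      cy_b hab (Ne.symm hdb) (Ne.symm hda), cy_o hab (Ne.symm hdb) hac.symm hbc.symm (Ne.symm hdc),
      cy_c hab (Ne.symm hdb), xa, xc, xd, mul_assoc,
      ← cy_mul hab hbc hac (Ne.symm hda) (Ne.symm hdb) (Ne.symm hdc)] at e2
    linarith
  simp only [List.nodup_cons, List.mem_cons, List.not_mem_nil, or_false, not_or,
    not_false_eq_true, List.nodup_nil, and_true] at h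
  have hk : ∀ q r : Fin n, p ≠ q → p ≠ r → q ≠ r → s ≠ p → s ≠ q → s ≠ r →
      F p q r = F1 s r p + F2 p q s := by
    intro q r h1 h2 h3 h4 h5 h6
    refine key q r ?_
    simp only [List.nodup_cons, List.mem_cons, List.not_mem_nil, or_false, not_or,
      not_false_eq_true, List.nodup_nil, and_true]
    exact ⟨⟨h1, h2, h4.symm⟩, ⟨h3, h5.symm⟩, h6.symm⟩
  obtain ⟨⟨h1, h2, h3, h4⟩, ⟨h5, h6, h7⟩, ⟨h8, h9⟩, h10⟩ := h
  obtain ⟨s1, s2, s3, s4, s5⟩ := hs
  rw [hk q r h1 h3 h6 s1 s2 s4, hk q' r' h2 h4 h9 s1 s3 s5, hk q r' h1 h4 h7 s1 s2 s5,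
    hk q' r h2 h3 h8 s1 s3 s4]
  ring

/-- a function of three variables with vanishing mixed differences -/
theorem three_sum (hOFF : S_OFF) (hn : 10 ≤ n) (F : Fin n → Fin n → Fin n → ℝ)
    (h23 : ∀ p q q' r r' : Fin n, [p, q, q', r, r'].Nodup →
      F p q r + F p q' r' = F p q r' + F p q' r)
    (h31 : ∀ q r r' p p' : Fin n, [q, r, r', p, p'].Nodup →
      F p q r + F p' q r' = F p' q r + F p q r')
    (h12 : ∀ r p p' q q' : Fin n, [r, p, p', q, q'].Nodup →
      F p q r + F p' q' r = F p q' r + F p' q r) :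
    ∃ A B C : Fin n → ℝ, ∀ p q r : Fin n, p ≠ q → q ≠ r → p ≠ r →
      F p q r = A p + B q + C r := by
  classical
  have s1 : ∀ p : Fin n, ∃ β γ : Fin n → ℝ, ∀ q r, p ≠ q → p ≠ r → q ≠ r →
      F p q r = β q + γ r := by
    intro p
    have hc : 5 ≤ Fintype.card {x : Fin n // x ≠ p} := by
      rw [Fintype.card_subtype_compl, Fintype.card_fin, Fintype.card_subtype_eq]
      omega
    obtain ⟨β, γ, h⟩ := hOFF {x : Fin n // x ≠ p} hc (fun q r => F p q r) (by
      intro q q' r r' h1 h2 h3 h4 h5 h6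
      refine h23 p q q' r r' ?_
      simp only [List.nodup_cons, List.mem_cons, List.not_mem_nil, or_false, not_or,
        not_false_eq_true, List.nodup_nil, and_true]
      refine ⟨⟨q.2.symm, q'.2.symm, r.2.symm, r'.2.symm⟩, ⟨?_, ?_, ?_⟩, ⟨?_, ?_⟩, ?_⟩ <;>
      · intro h
        first
        | exact h1 (Subtype.ext h)
        | exact h2 (Subtype.ext h)
        | exact h3 (Subtype.ext h)
        | exact h4 (Subtype.ext h)
        | exact h5 (Subtype.ext h)
        | exact h6 (Subtype.ext h))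
    refine ⟨fun q => if hq : q ≠ p then β ⟨q, hq⟩ else 0,
      fun r => if hr : r ≠ p then γ ⟨r, hr⟩ else 0, fun q r hq hr hqr => ?_⟩
    beta_reduce
    rw [dif_pos hq.symm, dif_pos hr.symm]
    exact h ⟨q, hq.symm⟩ ⟨r, hr.symm⟩ (fun e => hqr (congrArg Subtype.val e))
  choose β γ hβ using s1
  have hcard : 5 ≤ Fintype.card (Fin n) := by
    rw [Fintype.card_fin]
    omega
  obtain ⟨φ₁, ψ, h1⟩ := hOFF (Fin n) hcard β (by
    intro p p' q q' hpp hqq hpq hpq' hp'q hp'q'
    obtain ⟨r, hr⟩ := new_elt hn {p, p', q, q'} (card_le_four.trans (by norm_num))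
    simp only [mem_insert, mem_singleton, not_or] at hr
    obtain ⟨r1, r2, r3, r4⟩ := hr
    have e := h12 r p p' q q' (by
      simp only [List.nodup_cons, List.mem_cons, List.not_mem_nil, or_false, not_or,
        not_false_eq_true, List.nodup_nil, and_true]
      exact ⟨⟨r1, r2, r3, r4⟩, ⟨hpp, hpq, hpq'⟩, ⟨hp'q, hp'q'⟩, hqq⟩)
    rw [hβ p q r hpq (Ne.symm r1) (Ne.symm r3), hβ p' q' r hp'q' (Ne.symm r2) (Ne.symm r4),
      hβ p q' r hpq' (Ne.symm r1) (Ne.symm r4), hβ p' q r hp'q (Ne.symm r2) (Ne.symm r3)] at e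
    linarith)
  obtain ⟨φ₂, χ, h2⟩ := hOFF (Fin n) hcard γ (by
    intro p p' r r' hpp hrr hpr hpr' hp'r hp'r'
    obtain ⟨q, hq⟩ := new_elt hn {p, p', r, r'} (card_le_four.trans (by norm_num))
    simp only [mem_insert, mem_singleton, not_or] at hq
    obtain ⟨q1, q2, q3, q4⟩ := hq
    have e := h31 q r r' p p' (by
      simp only [List.nodup_cons, List.mem_cons, List.not_mem_nil, or_false, not_or,
        not_false_eq_true, List.nodup_nil, and_true]
      exact ⟨⟨q3, q4, q1, q2⟩, ⟨hrr, Ne.symm hpr, Ne.symm hp'r⟩, ⟨Ne.symm hpr', Ne.symm hp'r'⟩,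
        hpp⟩)
    rw [hβ p q r (Ne.symm q1) hpr q3, hβ p' q r' (Ne.symm q2) hp'r' q4,
      hβ p' q r (Ne.symm q2) hp'r q3, hβ p q r' (Ne.symm q1) hpr' q4] at e
    linarith)
  refine ⟨fun p => φ₁ p + φ₂ p, ψ, χ, fun p q r hpq hqr hpr => ?_⟩
  rw [hβ p q r hpq hpr hqr, h1 p q hpq, h2 p r hpr]
  ring

/-- the first differences vanish -/
theorem diff_zero (hOFF : S_OFF) (hn : 10 ≤ n) (w : G n → ℝ) (hV : Van w)
    (hw : ∀ z z' : G n, (z : Perm (Fin n)).IsThreeCycle → (z' : Perm (Fin n)).IsThreeCycle →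
      (z : Perm (Fin n)).Disjoint z' → D2 w z z')
    (a b c : Fin n) (hab : a ≠ b) (hbc : b ≠ c) (hac : a ≠ c) (x : G n) :
    w (x * cy a b c hab hbc) = w x := by
  classical
  obtain ⟨F, hF⟩ := fac w hw a b c hab hbc hac
  have h23 := mixed hn w hw a b c hab hbc hac F hF
  have h31 := mixed hn w hw b c a hbc hac.symm hab.symm (fun q r p => F p q r) (by
    intro x
    rw [← cy_rot hab hbc hac]
    exact hF x)
  have h12 := mixed hn w hw c a b hac.symm hab hbc.symm (fun r p q => F p q r) (by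
    intro x
    rw [← cy_rot hbc hac.symm hab.symm, ← cy_rot hab hbc hac]
    exact hF x)
  obtain ⟨A, B, C, hABC⟩ := three_sum hOFF hn F h23
    (fun q r r' p p' h => by
      have := h31 q r r' p p' h
      linarith) (fun r p p' q q' h => by
      have := h12 r p p' q q' h
      linarith)
  set f : G n → ℝ := fun x => w (x * cy a b c hab hbc) - w x with hf
  have hfs : ∀ x : G n, f x = A ((x : Perm (Fin n)) a) + B ((x : Perm (Fin n)) b) +
      C ((x : Perm (Fin n)) c) := by
    intro x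
    rw [hf]
    simp only
    rw [hF x, hABC _ _ _ (fun e => hab ((x : Perm (Fin n)).injective e))
      (fun e => hbc ((x : Perm (Fin n)).injective e))
      (fun e => hac ((x : Perm (Fin n)).injective e))]
  -- `f` satisfies `Van`
  have hfV : ∀ i j : Fin n, ∑ x ∈ T i j, f x = 0 := by
    intro i j
    rw [hf, sum_sub_distrib, hV i j, sub_zero]
    rw [← hV ((((cy a b c hab hbc : G n)⁻¹ : G n) : Perm (Fin n)) i) j]
    refine sum_nbij' (fun x => x * cy a b c hab hbc) (fun y => y * (cy a b c hab hbc)⁻¹)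
      ?_ ?_ ?_ ?_ ?_
    · intro x hx
      simp only [T, mem_filter, mem_univ, true_and] at hx ⊢
      rw [Subgroup.coe_mul, Perm.mul_apply, Subgroup.coe_inv, self_inv', hx]
    · intro y hy
      simp only [T, mem_filter, mem_univ, true_and] at hy ⊢
      rw [Subgroup.coe_mul, Perm.mul_apply, hy]
    · intro x _
      exact mul_inv_cancel_right _ _
    · intro y _
      exact inv_mul_cancel_right _ _
    · intro x _
      rfl
  have hsum : ∀ (i : Fin n) (E : Fin n → ℝ), ∑ x : G n, f x * E ((x : Perm (Fin n)) i) = 0 := by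
    intro i E
    rw [← sum_fiberwise_of_maps_to (s := univ) (t := univ)
      (g := fun x : G n => (x : Perm (Fin n)) i) (fun _ _ => mem_univ _)]
    refine sum_eq_zero fun j _ => ?_
    have h1 : ∑ x ∈ univ.filter (fun x : G n => (x : Perm (Fin n)) i = j),
        f x * E ((x : Perm (Fin n)) i) = (∑ x ∈ T i j, f x) * E j := by
      rw [sum_mul]
      refine sum_congr rfl fun x hx => ?_
      rw [(mem_filter.1 hx).2]
    rw [h1, hfV i j, zero_mul]
  have hsq : ∑ x : G n, f x * f x = 0 := by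
    have h1 : ∀ x : G n, f x * f x = f x * A ((x : Perm (Fin n)) a) +
        f x * B ((x : Perm (Fin n)) b) + f x * C ((x : Perm (Fin n)) c) := by
      intro x
      conv_lhs => rw [hfs x]
      rw [hfs x]
      ring
    rw [sum_congr rfl fun x _ => h1 x, sum_add_distrib, sum_add_distrib, hsum a A, hsum b B,
      hsum c C]
    norm_num
  rw [sum_eq_zero_iff_of_nonneg (fun x _ => mul_self_nonneg (f x))] at hsq
  have := mul_self_eq_zero.1 (hsq x (mem_univ x))
  rw [hf] at this
  simp only at this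
  linarith

/-- FE -/
theorem t_FE (hOFF : S_OFF) : S_FE := by
  classical
  intro n hn w hV hw
  have h3 : ∀ z : G n, (z : Perm (Fin n)).IsThreeCycle → ∀ x, w (x * z) = w x := by
    intro z hz x
    obtain ⟨a, b, c, hab, hbc, hac, rfl⟩ := three_cy hz
    exact diff_zero hOFF hn w hV hw a b c hab hbc hac x
  have hall : ∀ g : G n, ∀ x, w (x * g) = w x := by
    intro g
    have hg : g ∈ Subgroup.closure {g : G n | (g : Perm (Fin n)).IsThreeCycle} := by
      have := alternatingGroup.closure_isThreeCycles_eq_top (α := Fin n)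
      rw [this]
      trivial
    induction hg using Subgroup.closure_induction with
    | mem x hx => exact h3 x hx
    | one => intro x; rw [mul_one]
    | mul g h _ _ ih1 ih2 => intro x; rw [← mul_assoc, ih2, ih1]
    | inv g _ ih =>
      intro x
      have := ih (x * g⁻¹)
      rw [inv_mul_cancel_right] at this
      exact this.symm
  have hconst : ∀ x, w x = w 1 := by
    intro x
    have := hall x 1
    rwa [one_mul] at this
  have i : Fin n := ⟨0, by omega⟩
  have h1 := hV i i
  rw [sum_congr rfl fun x _ => hconst x, sum_const, nsmul_eq_mul] at h1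
  have h2 : (T i i : Finset (G n)).Nonempty := ⟨1, by simp [T]⟩
  have h4 : ((T i i : Finset (G n)).card : ℝ) ≠ 0 := by
    have := card_pos.2 h2
    positivity
  intro x
  rw [hconst x]
  exact (mul_eq_zero.1 h1).resolve_left h4

end Pool.Agent.V5helper1.ER
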